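import Pool.Agent.Helper68.QY.Fin
import Pool.Agent.Helper68.QY.Par

/-!
# The parity conjecture for `x³ + y³ = N`: the exact proportion `0.5601...`

`E : y² + N y = x³`, which is `3`-isogenous to `x³ + y³ = N`, for the cube-free `N > 0` such that
exactly `δ(N)` primes congruent to `2` modulo `3` divide `N`, where `δ(N) = 0` if `3` divides `N`
exactly once, `δ(N) = 2` if `N` is `±1` modulo `9`, and `δ(N) = 1` otherwise (`ClsU N`).

If there is no factorization `N = d₀ d₁ d₂` into pairwise coprime factors, at least two of them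
different from `1`, for which the cubic curve `d₀ X³ + d₁ Y³ + d₂ Z³ = 0` has a point over `ℚ_p` for all
primes `p` (`NoSplitL`), then `E(ℚ)` is finite, the `L`-function has an entire continuation `f` with
`f 1 ≠ 0`, and for every functional equation `Λ(s) = w Λ(2 - s)`, `Λ(s) = M ^ (s/2) (2π) ^ (-s) Γ(s) f(s)`
with `M > 0`, the sign is `w = 1 = (-1) ^ rank`: this is the parity conjecture for `E`, without any
assumption. The proportion of these `N` in the whole class, and in each of its four parts (`N` prime to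
`3` and not `±1` modulo `9`; `N = ±1` modulo `9`; `3` divides `N` exactly once; `9 ∣ N`), tends to

`c = ∏_{i ≥ 1} (1 - 3⁻ⁱ) = 0.5601...`

The theorem is deduced from the modules of `Pool.Agent.Results.MP_92892c_nt.CubicTwistsQ` (the
non-vanishing of `f 1` comes from a congruence modulo the prime above `3`); see there for the method and
the authors.
-/

set_option autoImplicit false

open Pool.Agent.Helper68.R1.Uni (ClsU)
open Pool.Agent.Helper68.R1.Els1 (NoSplitL)
open Pool.Agent.Helper68.QY (Prpn)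
open Pool.Agent.Helper68.QY.Par (Parity)

theorem Pool.Agent.Results.MP_577099_nt.CubicTwists.result :
    (∀ N : ℕ, ClsU N → NoSplitL N → Parity N) ∧
    ∃ c : ℝ, c = ∏' i : ℕ, (1 - (1 / 3 : ℝ) ^ (i + 1)) ∧ 0.56 < c ∧ c < 0.5603 ∧
      Prpn ClsU NoSplitL c ∧
      Prpn (fun N => ClsU N ∧ ¬ 3 ∣ N ∧ N % 9 ≠ 1 ∧ N % 9 ≠ 8) NoSplitL c ∧
      Prpn (fun N => ClsU N ∧ (N % 9 = 1 ∨ N % 9 = 8)) NoSplitL c ∧
      Prpn (fun N => ClsU N ∧ 3 ∣ N ∧ ¬ 9 ∣ N) NoSplitL c ∧
      Prpn (fun N => ClsU N ∧ 9 ∣ N) NoSplitL c := by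
  have key : ∀ N : ℕ, ClsU N → (Pool.Agent.Y703.CT.Triv3 N ↔ NoSplitL N) := fun N hN =>
    (Pool.Agent.Helper68.R1.Uni.law_all hN).2.choose_spec.2.choose_spec.2.2.2
  exact ⟨fun N h hs => Pool.Agent.Helper68.QY.Par.parity_of h ((key N h).2 hs),
    _, rfl, Pool.Agent.Helper68.QY.c3_bounds.1, Pool.Agent.Helper68.QY.c3_bounds.2,
    Pool.Agent.Helper68.QY.proportions⟩
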