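import Pool.Agent.Helper55.TWP.Fin

/-!
# The parity conjecture simultaneously for a curve and a class of its quadratic twists

The family is that of all elliptic curves over `ℚ`: the pairs of integers `(A, B)`, `4 A³ + 27 B² ≠ 0`,
such that no prime `q` has `q⁴ ∣ A` and `q⁶ ∣ B`, ordered by the height `max (4 |A|³, 27 B²)`; `E` is the
curve `y² = x³ + A x + B` and `E ^ d : y² = x³ + A d² x + B d³` its twist by `d`.

Theorem. Let `𝒟₀` be any finite set of squarefree integers `d ≡ 1 mod 8`, positive or negative. There are a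
finite set `Q` of odd primes and `c > 0` such that for all large `X` at least `c` times the number of all
members of the family of height at most `X` are good: for ALL `d` in the class of `(A, B)` - the squarefree
integers `d ≡ 1 mod 8`, of any sign, which are nonzero squares modulo the primes of `Q` and have only
prime divisors `l` such that `x³ + A x + B` has no zero modulo `l` - and in particular for all `d ∈ 𝒟₀`,
which are in the class, and for `d = 1`:

* `E ^ d (ℚ)` is finite of odd order, the rank is zero, and the 2-primary part of the Tate-Shafarevich group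
  of `E ^ d` over `ℚ` is zero (so that Monsky's theorem gives the parity conjecture for all these curves);
* `χ_d (-N) = 1` for the conductor `N` of `E`, more exactly for every `N` with the known local properties
  of the conductor, where `χ_d = (· / |d|)`: the sign given by the root numbers does not change;
* `(-1) ^ rank E ^ d (ℚ) = w d` for every function `w` which has the known properties of the root numbers:
  Monsky's theorem for `E` itself only and the law `w d = χ_d (-N) w 1`.

The proof: the engine TU of helper82 (itself on the library projects PF, PQ, TF of helper783, helper874 and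
others) gives a positive proportion of `f = x³ + A x + B` which are monotone over `ℝ`, irreducible modulo
`2`, `3` and the primes dividing the elements of `𝒟₀`, for which the 2-Selmer group vanishes over all Galois
2-extensions `M` of `ℚ` with `2` and the primes of `Q` split completely and `f` irreducible modulo the
ramified primes, the primes of `Q` splitting in `ℚ(√d, d ∈ 𝒟₀)`; no condition at infinity. Here: for
`M = ℚ(√d)` the 2-Selmer group of `E ^ d` over `ℚ` restricts injectively to `M` (a class which becomes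
trivial is that of `1` or of `d`, and the norm of `d` is not a square), where `E ^ d` becomes `E`. The sign:
`A = a D²`, `B = b D³` with `e = 4 a³ + 27 b² > 0` squarefree, and up to squares, `2` and primes `q ∈ Q`,
at which `χ_d (q) = 1` by reciprocity, the number `N` is `e`; `-e` is the discriminant of an irreducible
cubic polynomial modulo every prime divisor of `d`, hence a square.
-/

set_option autoImplicit false
set_option linter.all false

namespace Pool.Agent.Results.MP_577099_nt.SimultaneousTwists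

/-- The curve `y ^ 2 = x ^ 3 + A x + B` over `ℚ`. -/
def curve (A B : ℤ) : WeierstrassCurve ℚ := ⟨0, 0, 0, (A : ℚ), (B : ℚ)⟩

/-- The quadratic twist `E ^ d : y ^ 2 = x ^ 3 + A d ^ 2 x + B d ^ 3`. -/
def twist (A B d : ℤ) : WeierstrassCurve ℚ := curve (A * d ^ 2) (B * d ^ 3)

/-- All elliptic curves of height at most `X`: the pairs `(A, B)` of integers with `4 A ^ 3 + 27 B ^ 2 ≠ 0`
such that no prime `q` has `q ^ 4 ∣ A` and `q ^ 6 ∣ B`, of height `max (4 |A|³, 27 B²) ≤ X`. -/
def Family (X : ℝ) : Set (ℤ × ℤ) :=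
  {p | 4 * p.1 ^ 3 + 27 * p.2 ^ 2 ≠ 0 ∧
    (∀ q : ℕ, q.Prime → ¬ ((q : ℤ) ^ 4 ∣ p.1 ∧ (q : ℤ) ^ 6 ∣ p.2)) ∧
    max (4 * |(p.1 : ℝ)| ^ 3) (27 * (p.2 : ℝ) ^ 2) ≤ X}

/-- The rank of the group of the rational points. -/
noncomputable def rank (W : WeierstrassCurve ℚ) : ℕ := Module.finrank ℤ W.toAffine.Point

/-- The 2-primary part of the Tate-Shafarevich group of `W` over `ℚ` is zero: every cocycle with values in
the points over the separable closure which is trivial over all completions and whose class is killed by a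
power of two is a coboundary (definition of the library). -/
def ShaTwoTrivial (W : WeierstrassCurve ℚ) : Prop := Pool.Agent.N874.QM.ShaC W

/-- The class of `(A, B)` for the set `Q` of primes: the squarefree `d ≡ 1 mod 8`, of any sign, which are
nonzero squares modulo the primes in `Q`, such that `x ^ 3 + A x + B` has no zero modulo the primes
dividing `d`. -/
structure InClass (A B : ℤ) (Q : Finset ℕ) (d : ℤ) : Prop where
  squarefree : Squarefree d
  mod_eight : d % 8 = 1
  square : ∀ q ∈ Q, ¬ (q : ℤ) ∣ d ∧ ∃ x : ℤ, (q : ℤ) ∣ x ^ 2 - d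
  no_zero : ∀ l : ℕ, l.Prime → (l : ℤ) ∣ d → ∀ x : ℤ, ¬ (l : ℤ) ∣ x ^ 3 + A * x + B

/-- The local properties of the conductor `N` of `y ^ 2 = x ^ 3 + A x + B`, for a pair of the family: odd
primes which do not divide `4 A ^ 3 + 27 B ^ 2` do not divide `N`, primes `p ≥ 5` of multiplicative
reduction divide `N` exactly once, those of additive reduction exactly twice. (Nothing is said of `p = 2`,
nor of `p = 3` if it divides `4 A ^ 3 + 27 B ^ 2`.) -/
structure ConductorProperties (A B : ℤ) (N : ℕ) : Prop where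
  pos : 0 < N
  good : ∀ p : ℕ, p.Prime → p ≠ 2 → ¬ (p : ℤ) ∣ 4 * A ^ 3 + 27 * B ^ 2 → ¬ p ∣ N
  multiplicative : ∀ p : ℕ, p.Prime → 5 ≤ p → (p : ℤ) ∣ 4 * A ^ 3 + 27 * B ^ 2 → ¬ (p : ℤ) ∣ A →
    p ∣ N ∧ ¬ p ^ 2 ∣ N
  additive : ∀ p : ℕ, p.Prime → 5 ≤ p → (p : ℤ) ∣ 4 * A ^ 3 + 27 * B ^ 2 → (p : ℤ) ∣ A →
    p ^ 2 ∣ N ∧ ¬ p ^ 3 ∣ N

/-- The quadratic character of conductor `|d|`, for squarefree `d ≡ 1 mod 4`. -/
noncomputable def chi (d n : ℤ) : ℤ := jacobiSym n d.natAbs

/-- The known properties of the conductor `N` of `E` and of the root numbers `w d` of the twists `E ^ d` by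
the fundamental discriminants `d` prime to `2 N`: Monsky's theorem for the curve `E` alone and the law
`w d = χ_d (-N) w 1`. -/
structure RootNumberProperties (A B : ℤ) (N : ℕ) (w : ℤ → ℤ) : Prop where
  conductor : ConductorProperties A B N
  monsky : ShaTwoTrivial (curve A B) → (-1) ^ rank (curve A B) = w 1
  law : ∀ d : ℤ, Squarefree d → d % 4 = 1 → IsCoprime d (2 * N) → w d = chi d (-N) * w 1

/-- The properties of the good pairs. -/
structure Good (𝒟₀ : Finset ℤ) (Q : Finset ℕ) (A B : ℤ) : Prop where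
  mem : ∀ d ∈ 𝒟₀, InClass A B Q d
  one : InClass A B Q 1
  finite : ∀ d : ℤ, InClass A B Q d →
    Finite (twist A B d).toAffine.Point ∧ Odd (Nat.card (twist A B d).toAffine.Point)
  sha : ∀ d : ℤ, InClass A B Q d → ShaTwoTrivial (twist A B d)
  sign : ∀ d : ℤ, InClass A B Q d → ∀ N : ℕ, ConductorProperties A B N → chi d (-N) = 1
  parity : ∀ (N : ℕ) (w : ℤ → ℤ), RootNumberProperties A B N w →
    ∀ d : ℤ, InClass A B Q d → (-1) ^ rank (twist A B d) = w d

theorem rank_zero (W : WeierstrassCurve ℚ) (h : Finite W.toAffine.Point) : rank W = 0 := by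
  unfold rank
  haveI := h
  refine Module.finrank_eq_zero_of_rank_eq_zero ?_
  rw [rank_eq_zero_iff]
  intro x
  refine ⟨(Nat.card W.toAffine.Point : ℤ), by exact_mod_cast Nat.card_pos.ne', ?_⟩
  rw [natCast_zsmul]
  exact card_nsmul_eq_zero'

open Pool.Agent.Helper55.TWP

theorem fam_iff (X : ℝ) (p : ℤ × ℤ) : Fam X p ↔ p ∈ Family X := by
  constructor
  · rintro ⟨h1, h2, h3, h4⟩
    exact ⟨h1, h2, max_le h3 h4⟩
  · rintro ⟨h1, h2, h3⟩
    exact ⟨h1, h2, (le_max_left _ _).trans h3, (le_max_right _ _).trans h3⟩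

theorem cls_iff (A B : ℤ) (Q : Finset ℕ) (d : ℤ) : Cls (A, B) Q d ↔ InClass A B Q d :=
  ⟨fun h => ⟨h.1, h.2, h.3, h.4⟩, fun h => ⟨h.1, h.2, h.3, h.4⟩⟩

theorem pts_of (a b : ℤ)
    (h1 : Finite (Pool.Agent.TH115.GD.Pt (Pool.Agent.N874.PP.sW (a : ℚ) (b : ℚ)) ℚ))
    (h2 : Odd (Nat.card (Pool.Agent.TH115.GD.Pt (Pool.Agent.N874.PP.sW (a : ℚ) (b : ℚ)) ℚ))) :
    Finite (curve a b).toAffine.Point ∧ Odd (Nat.card (curve a b).toAffine.Point) := by
  have e : (Pool.Agent.N874.PP.sW (a : ℚ) (b : ℚ)).baseChange ℚ = curve a b := by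
    apply WeierstrassCurve.ext <;>
      simp [Pool.Agent.N874.PP.sW, curve, WeierstrassCurve.baseChange]
  have key : ∀ W : WeierstrassCurve ℚ,
      (Pool.Agent.N874.PP.sW (a : ℚ) (b : ℚ)).baseChange ℚ = W →
      Finite W.toAffine.Point ∧ Odd (Nat.card W.toAffine.Point) := by
    rintro W rfl
    exact ⟨h1, h2⟩
  exact key _ e

theorem one_mem (A B : ℤ) {Q : Finset ℕ} (hQ : ∀ q ∈ Q, q.Prime ∧ q ≠ 2) : InClass A B Q 1 := by
  refine ⟨squarefree_one, by norm_num, ?_, ?_⟩
  · intro q hq
    refine ⟨fun h => ?_, 1, by norm_num⟩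
    have h1 : q ∣ 1 := by exact_mod_cast h
    exact (hQ q hq).1.one_lt.ne' (Nat.dvd_one.1 h1)
  · intro l hl h
    have h1 : l ∣ 1 := by exact_mod_cast h
    exact absurd (Nat.dvd_one.1 h1) hl.one_lt.ne'

theorem cop_of {A B : ℤ} {Q : Finset ℕ} {d : ℤ} (h : InClass A B Q d) {N : ℕ}
    (hN : ConductorProperties A B N) : IsCoprime d (2 * N) := by
  rw [Int.isCoprime_iff_gcd_eq_one]
  by_contra hg
  obtain ⟨p, hp, hpg⟩ := Nat.exists_prime_and_dvd hg
  have h1 : (p : ℤ) ∣ d := (Int.natCast_dvd_natCast.2 hpg).trans (Int.gcd_dvd_left _ _)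
  have h2 : (p : ℤ) ∣ 2 * N := (Int.natCast_dvd_natCast.2 hpg).trans (Int.gcd_dvd_right _ _)
  have h8 := h.mod_eight
  have hp2 : p ≠ 2 := by
    rintro rfl
    have h3 : (2 : ℤ) ∣ d := by exact_mod_cast h1
    omega
  have h3 : p ∣ 2 * N := by exact_mod_cast h2
  rcases hp.dvd_mul.1 h3 with h4 | h4
  · exact hp2 ((Nat.prime_dvd_prime_iff_eq hp Nat.prime_two).1 h4)
  · exact hN.good p hp hp2 (disc_mod hp hp2 (h.no_zero p hp h1)) h4

theorem good_of {𝒟₀ : Finset ℤ} {Q : Finset ℕ} (hQ : ∀ q ∈ Q, q.Prime ∧ q ≠ 2) {A B : ℤ}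
    (h : GoodZ 𝒟₀ Q (A, B)) : Good 𝒟₀ Q A B := by
  have htw : ∀ d, InClass A B Q d → TwG (A, B) d := fun d hd => h.all d ((cls_iff A B Q d).2 hd)
  have hfin : ∀ d : ℤ, InClass A B Q d →
      Finite (twist A B d).toAffine.Point ∧ Odd (Nat.card (twist A B d).toAffine.Point) := by
    intro d hd
    exact pts_of _ _ (htw d hd).fin (htw d hd).odd
  have hsgn : ∀ d : ℤ, InClass A B Q d → ∀ N : ℕ, ConductorProperties A B N → chi d (-N) = 1 := by
    intro d hd N hN
    exact (htw d hd).sgn N ⟨hN.1, hN.2, hN.3, hN.4⟩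
  have h1 := one_mem A B hQ
  have hone : twist A B 1 = curve A B := by
    unfold twist
    norm_num
  refine ⟨fun d hd => (cls_iff A B Q d).1 (h.mem d hd), h1, hfin, fun d hd => (htw d hd).sha, hsgn, ?_⟩
  intro N w hw d hd
  have hsha : ShaTwoTrivial (curve A B) := by
    rw [← hone]
    exact (htw 1 h1).sha
  have hr1 : rank (curve A B) = 0 := by
    rw [← hone]
    exact rank_zero _ (hfin 1 h1).1
  have h2 := hw.monsky hsha
  rw [hr1, pow_zero] at h2
  have h8 := hd.mod_eight
  rw [rank_zero _ (hfin d hd).1, pow_zero, hw.law d hd.squarefree (by omega) (cop_of hd hw.conductor),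
    hsgn d hd N hw.conductor, ← h2, one_mul]

/-- For every finite set `𝒟₀` of squarefree `d ≡ 1 mod 8` a positive proportion of all elliptic curves over
`ℚ` is good: the curve and all its twists by the elements of its class, which contains `𝒟₀`, have finitely
many rational points and no 2-torsion in the Tate-Shafarevich group, and satisfy the parity conjecture. -/
theorem result (𝒟₀ : Finset ℤ) (h𝒟 : ∀ d ∈ 𝒟₀, Squarefree d ∧ d % 8 = 1) :
    ∃ Q : Finset ℕ, (∀ q ∈ Q, q.Prime ∧ q ≠ 2) ∧ ∃ c : ℝ, 0 < c ∧ ∃ X₀ : ℝ, ∀ X ≥ X₀,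
      (Family X).Finite ∧ 0 < (Family X).ncard ∧
      c * ((Family X).ncard : ℝ) ≤ ({p ∈ Family X | Good 𝒟₀ Q p.1 p.2}.ncard : ℝ) := by
  obtain ⟨Q, hQ, c, hc, Y₀, h⟩ := mainZ 𝒟₀ h𝒟
  refine ⟨Q, hQ, c, hc, Y₀, fun X hX => ?_⟩
  obtain ⟨h1, h2, h3⟩ := h X hX
  have e : {p : ℤ × ℤ | Fam X p} = Family X := by
    ext p
    exact fam_iff X p
  rw [e] at h1 h2 h3
  refine ⟨h1, h2, h3.trans ?_⟩
  have h4 : {p : ℤ × ℤ | Fam X p ∧ GoodZ 𝒟₀ Q p} ⊆ {p ∈ Family X | Good 𝒟₀ Q p.1 p.2} := by
    rintro ⟨A, B⟩ ⟨k1, k2⟩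
    exact ⟨(fam_iff X _).1 k1, good_of hQ k2⟩
  exact_mod_cast Set.ncard_le_ncard h4 (h1.subset fun p hp => hp.1)

end Pool.Agent.Results.MP_577099_nt.SimultaneousTwists
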